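import Pool.Agent.Helper27_KRO.Pair

/-!
# Lemmas for generated data modules (helper27, for MP_37fa12_co)
-/

set_option autoImplicit false

namespace Pool.Agent.H27KRO

open Pool.Agent.SOS

/-- multiple of a polynomial -/
def scl (m : ℕ) (p : List Tm) : List Tm := p.map fun t => (Int.ofNat m * t.1, t.2)

/-- `c` times a polynomial -/
def shc (p : List Tm) : List Tm := p.map fun t => (t.1, t.2.1, t.2.2.1, t.2.2.2 + 1)

section

variable {R : Type} [CommRing R]

theorem ev_sclR (m : ℕ) (p : List Tm) (a b c : R) : ev (scl m p) a b c = (m : R) * ev p a b c := by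
  induction p with
  | nil => simp [scl, ev]
  | cons t p ih =>
    have h : scl m (t :: p) = (Int.ofNat m * t.1, t.2) :: scl m p := rfl
    rw [h, ev_cons, ev_cons, ih]
    have h2 : ((Int.ofNat m * t.1 : ℤ) : R) = (m : R) * (t.1 : R) := by
      rw [Int.cast_mul]
      congr 1
      exact Int.cast_natCast m
    rw [h2]
    ring

theorem ev_shc (p : List Tm) (a b c : R) : ev (shc p) a b c = c * ev p a b c := by
  induction p with
  | nil => simp [shc, ev]
  | cons t p ih =>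
    have h : shc (t :: p) = (t.1, t.2.1, t.2.2.1, t.2.2.2 + 1) :: shc p := rfl
    rw [h, ev_cons, ev_cons, ih]
    show (t.1 : R) * (a ^ t.2.1 * (b ^ t.2.2.1 * c ^ (t.2.2.2 + 1))) + _ = _
    rw [pow_succ]
    ring

end

theorem ev_scl (m : ℕ) (p : List Tm) (a b c : ℝ) : ev (scl m p) a b c = (m : ℝ) * ev p a b c :=
  ev_sclR m p a b c

theorem scl_nonneg (m : ℕ) (p : List Tm) (a b c : ℝ) (h : 0 ≤ ev p a b c) :
    0 ≤ ev (scl m p) a b c := by
  rw [ev_scl]
  exact mul_nonneg (Nat.cast_nonneg m) h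

theorem nonneg_of_scl (m : ℕ) (hm : Nat.blt 0 m = true) {x : ℝ} (h : 0 ≤ (m : ℝ) * x) : 0 ≤ x := by
  have h1 : 0 < m := by
    have : Nat.ble (0 + 1) m = true := hm
    have := Nat.le_of_ble_eq_true this
    omega
  exact nonneg_of_mul_nonneg_right h (Nat.cast_pos.2 h1)

/-- the conditions for the pair blocks of the flip pair of `u - 2 h`, `h^2 = q c` -/
theorem flip_ev (m q : ℕ) (u : List Tm) (a b c : ℝ) (hc : 0 ≤ c) (hu : 0 ≤ ev u a b c)
    (hv : 4 * ((q : ℝ) * c) ≤ ev u a b c ^ 2) : 0 ≤ ev (scl (m * 2) u) a b c ∧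
      0 ≤ ev (scl (m * 2 * q) (shc u)) a b c ∧
      (ev (scl (m * 8) [(Int.ofNat q, 0, 0, 1)]) a b c) ^ 2 ≤
        4 * ev (scl (m * 2) u) a b c * ev (scl (m * 2 * q) (shc u)) a b c := by
  have h0 := flip_cond (u := ev u a b c) (q := (q : ℝ)) (c := c) (m := (m : ℝ)) hu
    (mul_nonneg (Nat.cast_nonneg q) hc) (Nat.cast_nonneg m) hv
  have e1 : ev (scl (m * 2) u) a b c = (m : ℝ) * (2 * ev u a b c) := by
    rw [ev_scl]
    push_cast
    ring
  have e2 : ev (scl (m * 2 * q) (shc u)) a b c = (m : ℝ) * (2 * ev u a b c * ((q : ℝ) * c)) := by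
    rw [ev_scl, ev_shc]
    push_cast
    ring
  have e3 : ev (scl (m * 8) [(Int.ofNat q, 0, 0, 1)]) a b c = (m : ℝ) * (8 * ((q : ℝ) * c)) := by
    rw [ev_scl, ev_cons, ev_nil]
    have h2 : ((Int.ofNat q : ℤ) : ℝ) = (q : ℝ) := Int.cast_natCast q
    rw [h2]
    push_cast
    ring
  rw [e1, e2, e3]
  exact h0

end Pool.Agent.H27KRO
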