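import Pool.Agent.Helper49_SOS.Chk

/-!
# Fast evaluation of the rows of `Pool.Agent.SOS` (helper27, for MP_37fa12_co)

The value of a packed row at the Kronecker point is computed by nested Horner sums: the inner sums
are small numbers, and full size numbers occur only at the outer level.
-/

set_option autoImplicit false

namespace Pool.Agent.H27KRO

open Pool.Agent.SOS

/-- inner level: the digits at the positions `p`, each shifted by `K` against the previous one -/
noncomputable def f1 (W K n : ℕ) (l : List ℕ) : ℕ :=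
  List.rec (motive := fun _ => ℕ) 0
    (fun p _ ih => Nat.add (Nat.mod (Nat.shiftRight n p) W) (Nat.shiftLeft ih K)) l

/-- middle level -/
noncomputable def f2 (W K n : ℕ) (l : List (ℕ × List ℕ)) : ℕ :=
  List.rec (motive := fun _ => ℕ) 0
    (fun q _ ih => Nat.add (f1 W K n q.2) (Nat.shiftLeft ih q.1)) l

/-- outer level -/
noncomputable def f3 (W K n : ℕ) (l : List (ℕ × List (ℕ × List ℕ))) : ℕ :=
  List.rec (motive := fun _ => ℕ) 0
    (fun q _ ih => Nat.add (f2 W K n q.2) (Nat.shiftLeft ih q.1)) l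

/-- positions and shifts of the inner level -/
def t1 (K : ℕ) : List ℕ → ℕ → List (ℕ × ℕ)
  | [], _ => []
  | p :: l, s => (p, s) :: t1 K l (s + K)

/-- positions and shifts of the middle level -/
def t2 (K : ℕ) : List (ℕ × List ℕ) → ℕ → List (ℕ × ℕ)
  | [], _ => []
  | q :: l, s => t1 K q.2 s ++ t2 K l (s + q.1)

/-- positions and shifts of the outer level -/
def t3 (K : ℕ) : List (ℕ × List (ℕ × List ℕ)) → ℕ → List (ℕ × ℕ)
  | [], _ => []
  | q :: l, s => t2 K q.2 s ++ t3 K l (s + q.1)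

theorem rowX_cons (W n : ℕ) (q : ℕ × ℕ) (l : List (ℕ × ℕ)) :
    rowX W n (q :: l) = (n >>> q.1 % W) * 2 ^ q.2 + rowX W n l := by
  show Nat.shiftLeft (Nat.mod (Nat.shiftRight n q.1) W) q.2 + rowX W n l = _
  have h : Nat.shiftLeft (Nat.mod (Nat.shiftRight n q.1) W) q.2 =
      (Nat.mod (Nat.shiftRight n q.1) W) * 2 ^ q.2 := Nat.shiftLeft_eq _ _
  rw [h]
  rfl

theorem rowX_append (W n : ℕ) (l m : List (ℕ × ℕ)) :
    rowX W n (l ++ m) = rowX W n l + rowX W n m := by
  induction l with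
  | nil =>
    show rowX W n m = 0 + rowX W n m
    rw [Nat.zero_add]
  | cons q l ih => rw [List.cons_append, rowX_cons, rowX_cons, ih, Nat.add_assoc]

theorem sl (a s : ℕ) : Nat.shiftLeft a s = a * 2 ^ s := Nat.shiftLeft_eq a s

theorem f1_eq (W K n : ℕ) : ∀ (l : List ℕ) (s : ℕ), rowX W n (t1 K l s) = f1 W K n l * 2 ^ s
  | [], s => by
    show 0 = 0 * 2 ^ s
    rw [Nat.zero_mul]
  | p :: l, s => by
    have h1 : f1 W K n (p :: l) = n >>> p % W + Nat.shiftLeft (f1 W K n l) K := rfl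
    rw [h1, sl, t1, rowX_cons, f1_eq W K n l (s + K), pow_add]
    ring

theorem f2_eq (W K n : ℕ) : ∀ (l : List (ℕ × List ℕ)) (s : ℕ),
    rowX W n (t2 K l s) = f2 W K n l * 2 ^ s
  | [], s => by
    show 0 = 0 * 2 ^ s
    rw [Nat.zero_mul]
  | q :: l, s => by
    have h1 : f2 W K n (q :: l) = f1 W K n q.2 + Nat.shiftLeft (f2 W K n l) q.1 := rfl
    rw [h1, sl, t2, rowX_append, f1_eq, f2_eq W K n l (s + q.1), pow_add]
    ring

theorem f3_eq (W K n : ℕ) : ∀ (l : List (ℕ × List (ℕ × List ℕ))) (s : ℕ),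
    rowX W n (t3 K l s) = f3 W K n l * 2 ^ s
  | [], s => by
    show 0 = 0 * 2 ^ s
    rw [Nat.zero_mul]
  | q :: l, s => by
    have h1 : f3 W K n (q :: l) = f2 W K n q.2 + Nat.shiftLeft (f3 W K n l) q.1 := rfl
    rw [h1, sl, t3, rowX_append, f2_eq, f3_eq W K n l (s + q.1), pow_add]
    ring

/-- equality of lists of pairs -/
def okL : List (ℕ × ℕ) → List (ℕ × ℕ) → Bool
  | [], [] => true
  | a :: l, q :: m => (Nat.beq a.1 q.1 && Nat.beq a.2 q.2) && okL l m
  | _, _ => false

theorem okL_eq : ∀ (l m : List (ℕ × ℕ)), okL l m = true → l = m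
  | [], [], _ => rfl
  | [], _ :: _, h => by simp [okL] at h
  | _ :: _, [], h => by simp [okL] at h
  | a :: l, q :: m, h => by
    simp only [okL, Bool.and_eq_true] at h
    have h1 := Nat.eq_of_beq_eq_true h.1.1
    have h2 := Nat.eq_of_beq_eq_true h.1.2
    rw [okL_eq l m h.2]
    have h3 : a = q := Prod.ext h1 h2
    rw [h3]

/-- the sum of the squares of the rows -/
noncomputable def sumF (W K O : ℕ) (T : List (ℕ × List (ℕ × List ℕ))) (rows : List ℕ) : ℕ :=
  List.rec (motive := fun _ => ℕ) 0 (fun n _ ih => Nat.add (sqd (f3 W K n T) O) ih) rows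

theorem sumF_eq {W K O : ℕ} {T : List (ℕ × List (ℕ × List ℕ))} {sh : List (ℕ × ℕ)}
    (h : okL (t3 K T 0) sh = true) : ∀ rows : List ℕ, sumF W K O T rows = sumSq W O sh rows
  | [] => rfl
  | n :: l => by
    have ih := sumF_eq (W := W) (O := O) h l
    have h1 : sumF W K O T (n :: l) = sqd (f3 W K n T) O + sumF W K O T l := rfl
    have h2 : sumSq W O sh (n :: l) = sqd (rowX W n sh) O + sumSq W O sh l := rfl
    rw [h1, h2, ih, ← okL_eq _ _ h, f3_eq, pow_zero, Nat.mul_one]

/-- **the check of `SmOk` with literals, fast evaluation** -/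
theorem smOk_fast {H W O S K : ℕ} {sh : List (ℕ × ℕ)} {rows : List ℕ} {b : Blk}
    {T : List (ℕ × List (ℕ × List ℕ))}
    (h1 : b.sh = sh) (h2 : b.rows = rows) (h3 : b.sm = S)
    (h0 : okL (t3 K T 0) sh = true)
    (h4 : (Nat.beq (2 * H) W && Nat.beq (offX H sh) O) = true)
    (h5 : Nat.beq (sumF W K O T rows) S = true) : SmOk H b := by
  simp only [Bool.and_eq_true] at h4
  unfold SmOk
  rw [h1, h2, h3, Nat.eq_of_beq_eq_true h4.1, Nat.eq_of_beq_eq_true h4.2, ← sumF_eq h0 rows]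
  exact Nat.eq_of_beq_eq_true h5

end Pool.Agent.H27KRO
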