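import Pool.Agent.Helper27_KRO.Fast

/-!
# Pair blocks for the checker of `Pool.Agent.SOS` (helper27, for MP_37fa12_co)

A pair block is a sum `∑_i (ge E_i^2 + go O_i^2 - gx E_i O_i)` with packed rows `(E_i, O_i)`; it is
nonnegative where `ge, go ≥ 0`, `gx^2 ≤ 4 ge go`.  The case of the flip pair of `u - 2 h`:
`ge = 2 u`, `go = 2 u q c`, `gx = 8 q c` (`h^2 = q c`).  A literal polynomial `PP` is compared with
the sum of the pair blocks by its value at the Kronecker point.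
-/

set_option autoImplicit false

namespace Pool.Agent.H27KRO

open Pool.Agent.SOS

/-- a pair block; `te`, `to`: nested shifts of the rows, `se = ∑ E^2`, `so = ∑ O^2`,
`cp - cn = ∑ E O` at the Kronecker point -/
structure PB where
  ge : List Tm
  go : List Tm
  gx : List Tm
  ea : ℕ
  eb : ℕ
  ee : List (ℕ × ℕ × ℕ × ℕ × ℕ)
  eo : List (ℕ × ℕ × ℕ × ℕ × ℕ)
  rows : List (ℕ × ℕ)
  se : ℕ
  so : ℕ
  cp : ℕ
  cn : ℕ

/-- the sum of `f E O` over the rows -/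
noncomputable def sumR (f : ℕ → ℕ → ℕ) (rows : List (ℕ × ℕ)) : ℕ :=
  List.rec (motive := fun _ => ℕ) 0
    (fun r _ ih => Nat.add (Prod.rec (motive := fun _ => ℕ) (fun e o => f e o) r) ih) rows

theorem sumR_cons (f : ℕ → ℕ → ℕ) (r : ℕ × ℕ) (l : List (ℕ × ℕ)) :
    sumR f (r :: l) = f r.1 r.2 + sumR f l := rfl

/-- the four sums have the given values -/
def PBOk (H : ℕ) (b : PB) : Prop :=
  sumR (fun e _ => sqd (rowX (2 * H) e (shf b.ee)) (offX H (shf b.ee))) b.rows = b.se ∧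
  sumR (fun _ o => sqd (rowX (2 * H) o (shf b.eo)) (offX H (shf b.eo))) b.rows = b.so ∧
  sumR (fun e o => rowX (2 * H) e (shf b.ee) * rowX (2 * H) o (shf b.eo) +
    offX H (shf b.ee) * offX H (shf b.eo)) b.rows = b.cp ∧
  sumR (fun e o => rowX (2 * H) e (shf b.ee) * offX H (shf b.eo) +
    offX H (shf b.ee) * rowX (2 * H) o (shf b.eo)) b.rows = b.cn

/-- the four sums, fast evaluation -/
noncomputable def fSE (W K O : ℕ) (T : List (ℕ × List (ℕ × List ℕ))) (rows : List (ℕ × ℕ)) : ℕ :=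
  sumR (fun e _ => sqd (f3 W K e T) O) rows
noncomputable def fSO (W K O : ℕ) (T : List (ℕ × List (ℕ × List ℕ))) (rows : List (ℕ × ℕ)) : ℕ :=
  sumR (fun _ o => sqd (f3 W K o T) O) rows
noncomputable def fCP (W K O O' : ℕ) (T T' : List (ℕ × List (ℕ × List ℕ)))
    (rows : List (ℕ × ℕ)) : ℕ :=
  sumR (fun e o => Nat.add (Nat.mul (f3 W K e T) (f3 W K o T')) (Nat.mul O O')) rows
noncomputable def fCN (W K O O' : ℕ) (T T' : List (ℕ × List (ℕ × List ℕ)))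
    (rows : List (ℕ × ℕ)) : ℕ :=
  sumR (fun e o => Nat.add (Nat.mul (f3 W K e T) O') (Nat.mul O (f3 W K o T'))) rows

theorem sumR_congr {f g : ℕ → ℕ → ℕ} (h : ∀ e o, f e o = g e o) (rows : List (ℕ × ℕ)) :
    sumR f rows = sumR g rows := by
  have : f = g := funext fun e => funext fun o => h e o
  rw [this]

theorem f3_row {W K : ℕ} {T : List (ℕ × List (ℕ × List ℕ))} {sh : List (ℕ × ℕ)}
    (h : okL (t3 K T 0) sh = true) (n : ℕ) : f3 W K n T = rowX W n sh := by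
  rw [← okL_eq _ _ h, f3_eq, pow_zero, Nat.mul_one]

/-- **the check of `PBOk` with literals, fast evaluation** -/
theorem pbOk_fast {H W K O O' SE SO CP CN : ℕ} {T T' : List (ℕ × List (ℕ × List ℕ))}
    {rows : List (ℕ × ℕ)} {sh sh' : List (ℕ × ℕ)} {b : PB}
    (h1 : okS sh b.ee = true) (h2 : okS sh' b.eo = true) (h3 : b.rows = rows)
    (h4 : b.se = SE) (h5 : b.so = SO) (h6 : b.cp = CP) (h7 : b.cn = CN)
    (h0 : (okL (t3 K T 0) sh && okL (t3 K T' 0) sh') = true)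
    (h8 : (Nat.beq (2 * H) W && (Nat.beq (offX H sh) O && Nat.beq (offX H sh') O')) = true)
    (h9 : (Nat.beq (fSE W K O T rows) SE && (Nat.beq (fSO W K O' T' rows) SO &&
      (Nat.beq (fCP W K O O' T T' rows) CP && Nat.beq (fCN W K O O' T T' rows) CN))) = true) :
    PBOk H b := by
  simp only [Bool.and_eq_true] at h0 h8 h9
  have e1 := okS_eq _ _ h1
  have e2 := okS_eq _ _ h2
  unfold PBOk
  rw [h3, h4, h5, h6, h7, ← e1, ← e2, Nat.eq_of_beq_eq_true h8.1, Nat.eq_of_beq_eq_true h8.2.1,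
    Nat.eq_of_beq_eq_true h8.2.2]
  refine ⟨?_, ?_, ?_, ?_⟩
  · rw [← Nat.eq_of_beq_eq_true h9.1]
    exact sumR_congr (fun e o => by rw [f3_row h0.1]) rows
  · rw [← Nat.eq_of_beq_eq_true h9.2.1]
    exact sumR_congr (fun e o => by rw [f3_row h0.2]) rows
  · rw [← Nat.eq_of_beq_eq_true h9.2.2.1]
    refine sumR_congr (fun e o => ?_) rows
    show _ = f3 W K e T * f3 W K o T' + O * O'
    rw [f3_row h0.1, f3_row h0.2]
  · rw [← Nat.eq_of_beq_eq_true h9.2.2.2]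
    refine sumR_congr (fun e o => ?_) rows
    show _ = f3 W K e T * O' + O * f3 W K o T'
    rw [f3_row h0.1, f3_row h0.2]

/-- the sum of the products `E O` -/
def crT (H : ℕ) (ee eo : List (ℕ × ℕ × ℕ × ℕ × ℕ)) (rows : List (ℕ × ℕ)) : List Tm :=
  rows.flatMap fun r => mul (rowT H r.1 ee) (rowT H r.2 eo)

theorem crT_cons (H : ℕ) (ee eo : List (ℕ × ℕ × ℕ × ℕ × ℕ)) (r : ℕ × ℕ) (l : List (ℕ × ℕ)) :
    crT H ee eo (r :: l) = mul (rowT H r.1 ee) (rowT H r.2 eo) ++ crT H ee eo l := rfl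

theorem sqT_cons (H : ℕ) (ex : List (ℕ × ℕ × ℕ × ℕ × ℕ)) (n : ℕ) (l : List ℕ) :
    sqT H ex (n :: l) = mul (rowT H n ex) (rowT H n ex) ++ sqT H ex l := rfl

/-- the polynomial of a pair block -/
def pbT (H : ℕ) (b : PB) : List Tm :=
  mul b.ge (sqT H b.ee (b.rows.map Prod.fst)) ++ (mul b.go (sqT H b.eo (b.rows.map Prod.snd)) ++
    neg (mul b.gx (crT H b.ee b.eo b.rows)))

/-- the polynomial of the pair blocks -/
def pbsT (H : ℕ) : List PB → List Tm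
  | [] => []
  | b :: l => pbT H b ++ pbsT H l

/-! ### the values at the Kronecker point -/

theorem sumR_fst {K d1 d2 A B H : ℕ} {ee : List (ℕ × ℕ × ℕ × ℕ × ℕ)}
    (h : okE K d1 d2 A B ee = true) : ∀ rows : List (ℕ × ℕ),
      ((sumR (fun e _ => sqd (rowX (2 * H) e (shf ee)) (offX H (shf ee))) rows : ℕ) : ℤ) =
        kv K d1 d2 (sqT H ee (rows.map Prod.fst))
  | [] => by simp [sumR, sqT, kv, ev]
  | r :: l => by
    have ih := sumR_fst (H := H) h l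
    rw [sumR_cons, Nat.cast_add, ih, List.map_cons, sqT_cons, kv_append, kv_mul,
      ← rowX_kv K d1 d2 A B H r.1 ee h, ← sqd_cast]

theorem sumR_snd {K d1 d2 A B H : ℕ} {eo : List (ℕ × ℕ × ℕ × ℕ × ℕ)}
    (h : okE K d1 d2 A B eo = true) : ∀ rows : List (ℕ × ℕ),
      ((sumR (fun _ o => sqd (rowX (2 * H) o (shf eo)) (offX H (shf eo))) rows : ℕ) : ℤ) =
        kv K d1 d2 (sqT H eo (rows.map Prod.snd))
  | [] => by simp [sumR, sqT, kv, ev]
  | r :: l => by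
    have ih := sumR_snd (H := H) h l
    rw [sumR_cons, Nat.cast_add, ih, List.map_cons, sqT_cons, kv_append, kv_mul,
      ← rowX_kv K d1 d2 A B H r.2 eo h, ← sqd_cast]

theorem sumR_cr {K d1 d2 A B H : ℕ} {ee eo : List (ℕ × ℕ × ℕ × ℕ × ℕ)}
    (he : okE K d1 d2 A B ee = true) (ho : okE K d1 d2 A B eo = true) : ∀ rows : List (ℕ × ℕ),
      ((sumR (fun e o => rowX (2 * H) e (shf ee) * rowX (2 * H) o (shf eo) +
        offX H (shf ee) * offX H (shf eo)) rows : ℕ) : ℤ) -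
      ((sumR (fun e o => rowX (2 * H) e (shf ee) * offX H (shf eo) +
        offX H (shf ee) * rowX (2 * H) o (shf eo)) rows : ℕ) : ℤ) =
        kv K d1 d2 (crT H ee eo rows)
  | [] => by simp [sumR, crT, kv, ev]
  | r :: l => by
    have ih := sumR_cr (H := H) he ho l
    rw [sumR_cons, sumR_cons, crT_cons, kv_append, kv_mul, ← ih,
      ← rowX_kv K d1 d2 A B H r.1 ee he, ← rowX_kv K d1 d2 A B H r.2 eo ho]
    push_cast
    ring

/-- the conditions for a pair block -/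
def okP (K d1 d2 : ℕ) (b : PB) : Bool :=
  (okE K d1 d2 b.ea b.eb b.ee && okE K d1 d2 b.ea b.eb b.eo) &&
    ((okT (d1 - 1 - (b.ea + b.ea)) (d2 - 1 - (b.eb + b.eb)) b.ge &&
      (okT (d1 - 1 - (b.ea + b.ea)) (d2 - 1 - (b.eb + b.eb)) b.go &&
        okT (d1 - 1 - (b.ea + b.ea)) (d2 - 1 - (b.eb + b.eb)) b.gx)) &&
      (Nat.ble (b.ea + b.ea) (d1 - 1) && Nat.ble (b.eb + b.eb) (d2 - 1)))

def allP (K d1 d2 : ℕ) : List PB → Bool
  | [] => true
  | b :: l => okP K d1 d2 b && allP K d1 d2 l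

/-- positive terms of the value -/
def ptP (K d1 d2 : ℕ) : List PB → ℕ
  | [] => 0
  | b :: l => Nat.add (Nat.add (Nat.add (Nat.mul (evP K d1 d2 b.ge) b.se)
      (Nat.mul (evP K d1 d2 b.go) b.so)) (Nat.add (Nat.mul (evN K d1 d2 b.gx) b.cp)
      (Nat.mul (evP K d1 d2 b.gx) b.cn))) (ptP K d1 d2 l)

/-- negative terms of the value -/
def ptN (K d1 d2 : ℕ) : List PB → ℕ
  | [] => 0
  | b :: l => Nat.add (Nat.add (Nat.add (Nat.mul (evN K d1 d2 b.ge) b.se)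
      (Nat.mul (evN K d1 d2 b.go) b.so)) (Nat.add (Nat.mul (evP K d1 d2 b.gx) b.cp)
      (Nat.mul (evN K d1 d2 b.gx) b.cn))) (ptN K d1 d2 l)

/-- bound for the coefficients -/
def bndP (H : ℕ) : List PB → ℕ
  | [] => 0
  | b :: l => (n1 b.ge * (b.rows.length * ((b.ee.length * H) * (b.ee.length * H))) +
      (n1 b.go * (b.rows.length * ((b.eo.length * H) * (b.eo.length * H))) +
        n1 b.gx * (b.rows.length * ((b.ee.length * H) * (b.eo.length * H))))) + bndP H l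

/-- the check of `PP = ∑ pair blocks` -/
def chkP (K d1 d2 H : ℕ) (PP : List Tm) (bs : List PB) : Bool :=
  (Nat.ble 1 d1 && (Nat.ble 1 d2 && Nat.ble 1 H)) && (okT (d1 - 1) (d2 - 1) PP &&
    (allP K d1 d2 bs && (Nat.blt (n1 PP + bndP H bs) (2 ^ K) &&
      Nat.beq (Nat.add (evP K d1 d2 PP) (ptN K d1 d2 bs))
        (Nat.add (evN K d1 d2 PP) (ptP K d1 d2 bs)))))

/-! ### correctness -/

theorem crT_n1 (H : ℕ) (hH : 1 ≤ H) (ee eo : List (ℕ × ℕ × ℕ × ℕ × ℕ)) : ∀ rows : List (ℕ × ℕ),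
    n1 (crT H ee eo rows) ≤ rows.length * ((ee.length * H) * (eo.length * H))
  | [] => by simp [crT, n1]
  | r :: l => by
    have ih := crT_n1 H hH ee eo l
    rw [crT_cons, n1_append, n1_mul, List.length_cons, Nat.add_mul, Nat.one_mul, Nat.add_comm]
    exact Nat.add_le_add ih (Nat.mul_le_mul (rowT_n1 H r.1 hH ee) (rowT_n1 H r.2 hH eo))

theorem crT_bd {K d1 d2 A B H : ℕ} {ee eo : List (ℕ × ℕ × ℕ × ℕ × ℕ)}
    (he : okE K d1 d2 A B ee = true) (ho : okE K d1 d2 A B eo = true) : ∀ rows : List (ℕ × ℕ),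
      Bd (A + A) (B + B) (crT H ee eo rows)
  | [] => fun t ht => absurd ht List.not_mem_nil
  | r :: l => by
    have ih := crT_bd (H := H) he ho l
    rw [crT_cons]
    exact Bd.append (Bd.mul (rowT_bd he) (rowT_bd ho)) ih

theorem pbT_n1 (H : ℕ) (hH : 1 ≤ H) (b : PB) : n1 (pbT H b) ≤
    n1 b.ge * (b.rows.length * ((b.ee.length * H) * (b.ee.length * H))) +
      (n1 b.go * (b.rows.length * ((b.eo.length * H) * (b.eo.length * H))) +
        n1 b.gx * (b.rows.length * ((b.ee.length * H) * (b.eo.length * H)))) := by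
  unfold pbT
  rw [n1_append, n1_append, n1_neg, n1_mul, n1_mul, n1_mul]
  have h1 := sqT_n1 H hH b.ee (b.rows.map Prod.fst)
  have h2 := sqT_n1 H hH b.eo (b.rows.map Prod.snd)
  rw [List.length_map] at h1 h2
  exact Nat.add_le_add (Nat.mul_le_mul le_rfl h1) (Nat.add_le_add (Nat.mul_le_mul le_rfl h2)
    (Nat.mul_le_mul le_rfl (crT_n1 H hH b.ee b.eo b.rows)))

theorem pbsT_n1 (H : ℕ) (hH : 1 ≤ H) : ∀ bs : List PB, n1 (pbsT H bs) ≤ bndP H bs
  | [] => by simp [pbsT, n1]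
  | b :: l => by
    have ih := pbsT_n1 H hH l
    show n1 (pbT H b ++ pbsT H l) ≤ _ + bndP H l
    rw [n1_append]
    exact Nat.add_le_add (pbT_n1 H hH b) ih

theorem pbT_bd {K d1 d2 H : ℕ} {b : PB} (h : okP K d1 d2 b = true) :
    Bd (d1 - 1) (d2 - 1) (pbT H b) := by
  simp only [okP, Bool.and_eq_true] at h
  obtain ⟨⟨h1, h2⟩, ⟨h3, h4, h5⟩, h6, h7⟩ := h
  have h6' : b.ea + b.ea ≤ d1 - 1 := Nat.le_of_ble_eq_true h6
  have h7' : b.eb + b.eb ≤ d2 - 1 := Nat.le_of_ble_eq_true h7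
  unfold pbT
  refine Bd.append ?_ (Bd.append ?_ (Bd.neg ?_))
  · exact Bd.mono (Bd.mul (okT_bd h3) (sqT_bd h1 _)) (by omega) (by omega)
  · exact Bd.mono (Bd.mul (okT_bd h4) (sqT_bd h2 _)) (by omega) (by omega)
  · exact Bd.mono (Bd.mul (okT_bd h5) (crT_bd h1 h2 _)) (by omega) (by omega)

theorem pbsT_bd {K d1 d2 H : ℕ} : ∀ {bs : List PB}, allP K d1 d2 bs = true →
    Bd (d1 - 1) (d2 - 1) (pbsT H bs)
  | [], _ => fun t ht => absurd ht List.not_mem_nil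
  | b :: l, h => by
    simp only [allP, Bool.and_eq_true] at h
    exact Bd.append (pbT_bd h.1) (pbsT_bd h.2)

theorem pbT_kv {K d1 d2 H : ℕ} {b : PB} (h : okP K d1 d2 b = true) (hb : PBOk H b) :
    kv K d1 d2 (pbT H b) = kv K d1 d2 b.ge * (b.se : ℤ) + kv K d1 d2 b.go * (b.so : ℤ) -
      kv K d1 d2 b.gx * ((b.cp : ℤ) - (b.cn : ℤ)) := by
  simp only [okP, Bool.and_eq_true] at h
  obtain ⟨⟨h1, h2⟩, _⟩ := h
  obtain ⟨e1, e2, e3, e4⟩ := hb
  unfold pbT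
  rw [kv_append, kv_append, kv_neg, kv_mul, kv_mul, kv_mul, ← sumR_fst h1, ← sumR_snd h2,
    ← sumR_cr h1 h2, e1, e2, e3, e4]
  ring

theorem pbsT_kv {K d1 d2 H : ℕ} : ∀ {bs : List PB}, allP K d1 d2 bs = true →
    (∀ b ∈ bs, PBOk H b) →
    ((ptP K d1 d2 bs : ℕ) : ℤ) - ((ptN K d1 d2 bs : ℕ) : ℤ) = kv K d1 d2 (pbsT H bs)
  | [], _, _ => by simp [ptP, ptN, pbsT, kv, ev]
  | b :: l, h, hS => by
    simp only [allP, Bool.and_eq_true] at h
    have ih := pbsT_kv (H := H) h.2 (fun x hx => hS x (List.mem_cons_of_mem _ hx))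
    show ((_ + ptP K d1 d2 l : ℕ) : ℤ) - ((_ + ptN K d1 d2 l : ℕ) : ℤ) =
      kv K d1 d2 (pbT H b ++ pbsT H l)
    rw [kv_append, pbT_kv h.1 (hS b List.mem_cons_self), ← ih, ← evPN, ← evPN, ← evPN]
    show (((evP K d1 d2 b.ge * b.se + evP K d1 d2 b.go * b.so) +
      (evN K d1 d2 b.gx * b.cp + evP K d1 d2 b.gx * b.cn) + ptP K d1 d2 l : ℕ) : ℤ) -
      (((evN K d1 d2 b.ge * b.se + evN K d1 d2 b.go * b.so) +
      (evP K d1 d2 b.gx * b.cp + evN K d1 d2 b.gx * b.cn) + ptN K d1 d2 l : ℕ) : ℤ) = _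
    push_cast
    ring

/-- a binary quadratic form -/
theorem quad_nonneg {g k x E O : ℝ} (hg : 0 ≤ g) (hk : 0 ≤ k) (hx : x ^ 2 ≤ 4 * g * k) :
    0 ≤ g * (E * E) + k * (O * O) - x * (E * O) := by
  rcases hg.eq_or_lt with h | h
  · have h1 : x = 0 := by
      have : x ^ 2 ≤ 0 := by rw [← h] at hx; linarith
      nlinarith [sq_nonneg x]
    rw [← h, h1]
    have := mul_nonneg hk (mul_self_nonneg O)
    linarith
  · have h1 : 0 ≤ 4 * g * (g * (E * E) + k * (O * O) - x * (E * O)) := by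
      nlinarith [sq_nonneg (2 * g * E - x * O), mul_nonneg (sub_nonneg.2 hx) (mul_self_nonneg O)]
    exact nonneg_of_mul_nonneg_right h1 (by positivity)

theorem ev_pair {H : ℕ} {ee eo : List (ℕ × ℕ × ℕ × ℕ × ℕ)} {a b c g k x : ℝ} (hg : 0 ≤ g)
    (hk : 0 ≤ k) (hx : x ^ 2 ≤ 4 * g * k) : ∀ rows : List (ℕ × ℕ),
      0 ≤ g * ev (sqT H ee (rows.map Prod.fst)) a b c +
        k * ev (sqT H eo (rows.map Prod.snd)) a b c - x * ev (crT H ee eo rows) a b c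
  | [] => by simp [sqT, crT, ev]
  | r :: l => by
    have ih := ev_pair (H := H) (ee := ee) (eo := eo) (a := a) (b := b) (c := c) hg hk hx l
    rw [List.map_cons, List.map_cons, sqT_cons, sqT_cons, crT_cons, ev_append, ev_append,
      ev_append, ev_mul, ev_mul, ev_mul]
    have h1 := quad_nonneg (E := ev (rowT H r.1 ee) a b c) (O := ev (rowT H r.2 eo) a b c) hg hk hx
    linarith

theorem ev_pbsT {H : ℕ} (a b c : ℝ) : ∀ bs : List PB, (∀ x ∈ bs, 0 ≤ ev x.ge a b c ∧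
    0 ≤ ev x.go a b c ∧ (ev x.gx a b c) ^ 2 ≤ 4 * ev x.ge a b c * ev x.go a b c) →
    0 ≤ ev (pbsT H bs) a b c
  | [], _ => by simp [pbsT, ev]
  | x :: l, h => by
    have ih := ev_pbsT (H := H) a b c l (fun y hy => h y (List.mem_cons_of_mem _ hy))
    obtain ⟨h1, h2, h3⟩ := h x List.mem_cons_self
    show 0 ≤ ev (pbT H x ++ pbsT H l) a b c
    rw [ev_append]
    refine add_nonneg ?_ ih
    unfold pbT
    rw [ev_append, ev_append, ev_neg, ev_mul, ev_mul, ev_mul]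
    have := ev_pair (H := H) (ee := x.ee) (eo := x.eo) (a := a) (b := b) (c := c) h1 h2 h3 x.rows
    linarith

/-- **correctness of the pair checker** -/
theorem chkP_sound {K d1 d2 H : ℕ} {PP : List Tm} {bs : List PB}
    (h : chkP K d1 d2 H PP bs = true) (hS : ∀ x ∈ bs, PBOk H x) (a b c : ℝ) (ha : 0 ≤ a)
    (hb : 0 ≤ b) (hc : 0 ≤ c) (hg : ∀ x ∈ bs, 0 ≤ ev x.ge a b c ∧ 0 ≤ ev x.go a b c ∧
      (ev x.gx a b c) ^ 2 ≤ 4 * ev x.ge a b c * ev x.go a b c) : 0 ≤ ev PP a b c := by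
  simp only [chkP, Bool.and_eq_true] at h
  obtain ⟨⟨h1, h2, hH⟩, h3, h4, h5, h6⟩ := h
  have hd1 : 1 ≤ d1 := Nat.le_of_ble_eq_true h1
  have hd2 : 1 ≤ d2 := Nat.le_of_ble_eq_true h2
  have hH1 : 1 ≤ H := Nat.le_of_ble_eq_true hH
  have h8 : n1 PP + bndP H bs < 2 ^ K := by
    have : Nat.ble (n1 PP + bndP H bs + 1) (2 ^ K) = true := h5
    exact Nat.le_of_ble_eq_true this
  have hR := Nat.eq_of_beq_eq_true h6
  have hz : n1 (PP ++ neg (pbsT H bs)) + 0 < 2 ^ K := by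
    rw [n1_append, n1_neg]
    have := pbsT_n1 H hH1 bs
    omega
  have hD : kv K d1 d2 (PP ++ neg (pbsT H bs)) = ((0 : ℕ) : ℤ) := by
    rw [kv_append, kv_neg, ← evPN, ← pbsT_kv h4 hS]
    have e : ((evP K d1 d2 PP + ptN K d1 d2 bs : ℕ) : ℤ) =
        ((evN K d1 d2 PP + ptP K d1 d2 bs : ℕ) : ℤ) := congrArg _ hR
    push_cast at e ⊢
    linarith
  have key := kron d1 d2 (2 ^ K) 0 0 0 (PP ++ neg (pbsT H bs))
    (Bd.append (okT_bd h3) (Bd.neg (pbsT_bd h4))) hd1 hd2 hz hD rfl a b c ha hb hc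
  rw [ev_append, ev_neg] at key
  have h9 := ev_pbsT (H := H) a b c bs hg
  linarith

/-- the condition of `chkP_sound` for the flip pair of `u - 2 h`, `h^2 = q c`, times `m ≥ 0` -/
theorem flip_cond {u q c m : ℝ} (hu : 0 ≤ u) (hc : 0 ≤ q * c) (hm : 0 ≤ m)
    (h : 4 * (q * c) ≤ u ^ 2) : 0 ≤ m * (2 * u) ∧ 0 ≤ m * (2 * u * (q * c)) ∧
      (m * (8 * (q * c))) ^ 2 ≤ 4 * (m * (2 * u)) * (m * (2 * u * (q * c))) := by
  refine ⟨by positivity, ?_, ?_⟩
  · exact mul_nonneg hm (mul_nonneg (by positivity) hc)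
  · have h1 : 0 ≤ (u ^ 2 - 4 * (q * c)) * ((q * c) * m ^ 2) :=
      mul_nonneg (by linarith) (mul_nonneg hc (sq_nonneg m))
    nlinarith [h1]

end Pool.Agent.H27KRO
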